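import Pool.Agent.helper7.FI2.SpecK

/-!
# Project fi2 (MP_baa4d7_al), block F, row FCP2: stabilisers
-/

set_option autoImplicit false

namespace Pool.Agent.FI2

open Pool.Agent.helper58.DC Pool.Agent.DI Pool.Agent.GR Pool.Agent.OB Pool.Agent.DR Pool.Agent.FI

theorem FCP2 (hFRA : FRA_stmt) (hKNQ : KNQ_stmt) (hKF1 : KF1_stmt) (hIF : IF_stmt) : FCP2_stmt := by
  intro p M hM G _ _ D x θ χ hlo P hP hP0 N hN hN' ψ hψ
  obtain ⟨⟨h1, h2, h3, h4⟩, h5, h6⟩ := hFRA p M hM G D x θ χ hlo P hP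
  have h4 := h4 hP0
  have hKS : cz P ≤ stF N ψ := by
    intro k hk
    refine ⟨hN hk, ?_⟩
    funext y
    have e := cjF_apply k ψ y
    have e' := ((hIF G (cz P)).2 ψ hψ.1).2.1 k⁻¹ ((cz P).inv_mem hk) y
    rw [inv_inv] at e'
    exact e.trans e'
  have hS0 : stF (TT M D θ ⊓ N) ψ ≤ stF N ψ := by
    intro k hk
    exact ⟨hk.1.2, hk.2⟩
  have hCS0 : cz D ≤ stF (TT M D θ ⊓ N) ψ := by
    intro k hk
    exact ⟨⟨h1 hk, hN (h2 hk)⟩, (hKS (h2 hk)).2⟩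
  have hS0T : stF (TT M D θ ⊓ N) ψ ≤ TT M D θ := fun k hk => hk.1.1
  have hmain : ∀ n ∈ stF N ψ, ∃ k ∈ cz P, k * n ∈ stF (TT M D θ ⊓ N) ψ := by
    intro n hn
    have hn2 : cjF n ψ = ψ := hn.2
    obtain ⟨k, hk, hkn⟩ := h5 n (hN' hn.1) ψ hψ (by rw [hn2]; exact hψ)
    have h7 := (stF N ψ).mul_mem (hKS hk) hn
    exact ⟨k, hk, ⟨hkn, h7.1⟩, h7.2⟩
  have hinf : stF (TT M D θ ⊓ N) ψ ⊓ cz P = cz D := by
    apply le_antisymm
    · intro k hk
      rw [← h4]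
      exact ⟨hk.1.1.1, hk.2⟩
    · intro k hk
      exact ⟨hCS0 hk, h2 hk⟩
  have hSn : stF N ψ ≤ nz (cz P) := by
    intro n hn
    rw [Subgroup.mem_normalizer_iff]
    intro k
    constructor
    · intro hk
      exact cz_conj (hN' hn.1) hk
    · intro hk
      have h7 := cz_conj ((nz P).inv_mem (hN' hn.1)) hk
      have h8 : n⁻¹ * (n * k * n⁻¹) * n⁻¹⁻¹ = k := by group
      rwa [h8] at h7
  obtain ⟨k1, k2, k3⟩ := hKNQ G (cz P) (stF N ψ) (cz D) (stF (TT M D θ ⊓ N) ψ) hKS hSn hCS0 hS0 hinf hmain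
  have hCY : CY2 (cz D) (stF (TT M D θ ⊓ N) ψ) := by
    refine hKF1 G D (cz D) _ hlo.nb hlo.rt.com hCS0 (fun t ht => (hS0T ht).1) ?_ ?_ ?_
    · intro t ht
      have ht' : t ∈ nz D := (hS0T ht).1
      rw [Subgroup.mem_normalizer_iff]
      intro k
      constructor
      · intro hk
        exact cz_conj ht' hk
      · intro hk
        have h7 := cz_conj ((nz D).inv_mem ht') hk
        have h8 : t⁻¹ * (t * k * t⁻¹) * t⁻¹⁻¹ = k := by group
        rwa [h8] at h7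
    · intro c hc d hd
      rw [Subgroup.mem_centralizer_iff] at hc
      exact (hc d hd).symm
    · intro t ht u hu hu1 htu
      exact hlo.free t (hS0T ht) u hu hu1 htu
  have hdv : (cz P).relIndex (stF N ψ) ∣ (cz D).relIndex (TT M D θ) := by
    rw [k3]
    exact Dvd.intro _ (Subgroup.relIndex_mul_relIndex _ _ _ hCS0 hS0T)
  refine ⟨k2 hCY, fun hd => hlo.bet (dvd_trans hd hdv), ?_, k1⟩
  refine Nat.le_of_dvd ?_ hdv
  exact Nat.pos_of_ne_zero Subgroup.index_ne_zero_of_finite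

end Pool.Agent.FI2
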