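import Pool.Agent.helper7.FI2.SpecK

/-!
# Project fi2 (MP_baa4d7_al), block F, row FSQ2: sum over the stabilisers
-/

set_option autoImplicit false

namespace Pool.Agent.FI2

open Pool.Agent.helper58.DC Pool.Agent.DI Pool.Agent.GR Pool.Agent.OB Pool.Agent.DR Pool.Agent.FI

theorem FSQ2 (hFIX : FIX_stmt) (hFCP2 : FCP2_stmt) (hFRA : FRA_stmt) (hKFP : KFP_stmt) (hKF1 : KF1_stmt)
    (hIF : IF_stmt) : FSQ2_stmt := by
  intro p M hS G _ _ D x θ χ hL P hPD hP N hN1 hN2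
  have hcard : (Bl M (cz P) θ).ncard = Nat.card D := (hL.good P hPD hP).card
  have hDpos : 0 < Nat.card D := Nat.card_pos
  have hfin : (Bl M (cz P) θ).Finite := Set.finite_of_ncard_pos (by rw [hcard]; exact hDpos)
  obtain ⟨hcT, hcP, -, -⟩ := (hFRA p M hS G D x θ χ hL.lo P hPD).1
  have hF := hFCP2 p M hS G D x θ χ hL.lo P hPD hP N hN1 hN2
  have hCT : cz D ≤ TT M D θ ⊓ N := le_inf hcT (hcP.trans hN1)
  have hCY : CY2 (cz D) (TT M D θ ⊓ N) := by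
    refine hKF1 G D (cz D) _ hL.lo.nb hL.lo.rt.com hCT (fun t ht => ht.1.1) ?_ ?_ ?_
    · intro t ht
      have ht' : t ∈ nz D := ht.1.1
      rw [Subgroup.mem_normalizer_iff]
      intro k
      constructor
      · intro hk
        exact cz_conj ht' hk
      · intro hk
        have h7 := cz_conj ((nz D).inv_mem ht') hk
        have h8 : t⁻¹ * (t * k * t⁻¹) * t⁻¹⁻¹ = k := by group
        rwa [h8] at h7
    · intro c hc d hd
      rw [Subgroup.mem_centralizer_iff] at hc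
      exact (hc d hd).symm
    · intro t ht u hu hu1 htu
      exact hL.lo.free t ht.1 u hu hu1 htu
  have hfx : ∀ c ∈ cz D, ∀ ψ ∈ Bl M (cz P) θ, cjF c ψ = ψ := by
    intro c hc ψ hψ
    funext y
    have e := cjF_apply c ψ y
    have e' := ((hIF G (cz P)).2 ψ hψ.1).2.1 c⁻¹ ((cz P).inv_mem (hcP hc)) y
    rw [inv_inv] at e'
    exact e.trans e'
  have hK := hKFP G (cz D) (TT M D θ ⊓ N) (Bl M (cz P) θ) 1 hCT hCY hfin hfx
    (fun t ht htc => hFIX p M hS G D x θ χ hL P hPD hP t ht.1 (hN2 ht.2) htc)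
  rw [hcard] at hK
  have e1 : Nat.card (cz D) ^ 2 * ∑ᶠ ψ ∈ Bl M (cz P) θ, nP (cz P) (stF N ψ) =
      Nat.card (cz P) ^ 2 * ∑ᶠ ψ ∈ Bl M (cz P) θ, nP (cz D) (stF (TT M D θ ⊓ N) ψ) := by
    rw [mul_finsum_mem' _ _ hfin, mul_finsum_mem' _ _ hfin]
    exact finsum_mem_congr rfl fun ψ hψ => (hF ψ hψ).2.2.2
  rw [e1]
  congr 1
  obtain ⟨m, hm⟩ : ∃ m, Nat.card D = m + 1 := ⟨Nat.card D - 1, by omega⟩
  rw [hm] at hK ⊢
  rw [Nat.add_sub_cancel]
  have h9 : ∑ᶠ ψ ∈ Bl M (cz P) θ, nP (cz D) (stF (TT M D θ ⊓ N) ψ) + Nat.card (cz D) ^ 2 =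
      (Nat.card (cz D) ^ 2 * m + nP (cz D) (TT M D θ ⊓ N)) + Nat.card (cz D) ^ 2 := by
    rw [mul_one] at hK
    rw [hK]
    ring
  exact Nat.add_right_cancel h9

end Pool.Agent.FI2
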