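import Pool.Agent.helper7.FI2.SpecH2
import Pool.Agent.helper12.FI.QGG

/-!
# Project fi2 (MP_baa4d7_al), block H, row HHT: heights are zero
-/

set_option autoImplicit false

namespace Pool.Agent.FI2

open Pool.Agent.helper58.DC Pool.Agent.DI Pool.Agent.GR Pool.Agent.OB Pool.Agent.DR Pool.Agent.FI

theorem HHT (hHQA : HQA_stmt) (hHLA : HLA_stmt) (hHNR : HNR_stmt) (hLCO : LCO_stmt) (hTPR : FI.TPR_stmt) :
    HHT_stmt := by
  classical
  intro p M hS hp G _ _ D x θ χ h hT hG hlt hle a ha ψ hψ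
  have hpr := hS.pr
  have : Fact p.Prime := ⟨hpr⟩
  have hR := h.lo.rt
  have hcz := QGG_cz_bot G
  obtain ⟨⟨u₀, hu₀⟩, hu₀1⟩ := (Subgroup.ne_bot_iff_exists_ne_one).1 h.lo.nb
  obtain ⟨I, β, n, hI, hL, hh⟩ := hHQA p M hS hp G D x θ χ h hT hG
  have hBl : Blk M χ (⊤ : Subgroup G) = Bl M (cz (⊥ : Subgroup G)) θ := by
    obtain ⟨-, h2, -, -, -⟩ := hTPR p M hS G
    have h3 : SB M (⊤ : Subgroup G) θ χ := (h2 θ χ).1 hR.ind
    rw [hcz]
    ext ψ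
    constructor
    · rintro ⟨h4, h5⟩
      exact ⟨h4, ((h2 ψ χ).1 h5).trans h3.symm⟩
    · rintro ⟨h4, h5⟩
      exact ⟨h4, (h2 ψ χ).2 (h5.trans h3)⟩
  have hfin : (Bl M (cz (⊥ : Subgroup G)) θ).Finite := (IrrOn_fin _).subset fun ψ hψ => hψ.1
  have : Finite ↥(Bl M (cz (⊥ : Subgroup G)) θ) := hfin.to_subtype
  rw [hBl] at hψ
  let ψ' : Bl M (cz (⊥ : Subgroup G)) θ := ⟨ψ, hψ⟩
  let v₀ : D := ⟨u₀, hu₀⟩
  have hv₀ : v₀ ≠ 1 := hu₀1
  have hv₀Z : v₀ ∉ (⊥ : Subgroup D) := fun h1 => hv₀ (Subgroup.mem_bot.1 h1)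
  have h1 := hHLA p M D (Bl M (cz (⊥ : Subgroup G)) θ) ⊥ I β _ n hL rfl (by rw [hI]; exact hlt)
    (by rw [hI]; exact hle) ψ' (by
      rw [hI]
      exact hHNR p M hS G D x θ χ h ψ hψ) v₀ hv₀
  have hdint : IntAt M (dd M (Cz (cz (⊥ : Subgroup G)) v₀) θ ψ v₀) :=
    IntAt.of_isIntegral hS (hL.h7 ψ' v₀ hv₀Z)
  have h2 : ¬ InM M (β ψ' v₀) := by
    rw [hL.h3a ψ' v₀ hv₀Z]
    intro h3
    have hnI : IntAt M ((n v₀ : ℤ) : ℂ) := IntAt.of_isIntegral hS (by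
      have h9 : IsIntegral ℤ (algebraMap ℤ ℂ (n v₀)) := isIntegral_algebraMap
      simpa using h9)
    rcases InM.or hS hnI hdint h3 with h4 | h4
    · apply hL.h3b v₀ hv₀Z
      have h5 : InM M ((n v₀ : ℤ) : ℂ) := h4
      exact (InM.intCast hS (n v₀)).1 h5
    · exact h1 h4
  have hcom : ∀ c d : D, c * d = d * c := fun c d => Subtype.ext (hR.com c c.2 d d.2)
  let _ : CommGroup D := { (inferInstance : Group D) with mul_comm := hcom }
  have : Fintype D := Fintype.ofFinite _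
  have h3 := (hLCO p M D (β ψ') hS hR.dfa.pgrp (hL.h1 ψ')).2.2 v₀
  obtain ⟨N, k, hN, hN0, hk, hv⟩ := hh ψ'
  have h4 : ¬ p ∣ N := by
    intro h5
    apply h2
    have h6 : InM M (β ψ' 1) := by
      rw [hN]
      exact (InM.natCast hS N).2 h5
    have h7 := InM.add hS h3 h6
    rw [sub_add_cancel] at h7
    exact h7
  refine ⟨k, hk, ?_⟩
  rw [padicValNat.eq_zero_of_not_dvd h4, ha, padicValNat.prime_pow, hcz] at hv
  have h5 : ((padicValNat p (Nat.card (⊤ : Subgroup G)) : ℕ) : ℤ) = padicValNat p k + a := by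
    exact_mod_cast (by omega : padicValNat p (Nat.card (⊤ : Subgroup G)) = padicValNat p k + a)
  rw [h5]
  ring

end Pool.Agent.FI2
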