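import Pool.Agent.helper7.FI2.SpecK

/-!
# Project fi2 (MP_baa4d7_al), block K, row KNQ: pairs of elements which commute modulo a subgroup, second isomorphism
-/

set_option autoImplicit false

namespace Pool.Agent.FI2

open Pool.Agent.helper58.DC Pool.Agent.DI Pool.Agent.GR Pool.Agent.OB Pool.Agent.DR Pool.Agent.FI

/-- the commutator modulo `K` -/
theorem KNQ_comm {Γ : Type} [Group Γ] {K : Subgroup Γ} {k k' a b : Γ} (hk : k ∈ K) (hk' : k' ∈ K)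
    (ha : a ∈ nz K) (hb : b ∈ nz K) :
    (k * a) * (k' * b) * (k * a)⁻¹ * (k' * b)⁻¹ ∈ K ↔ a * b * a⁻¹ * b⁻¹ ∈ K := by
  have h1 : a * k' * a⁻¹ ∈ K := (Subgroup.mem_normalizer_iff.1 ha k').1 hk'
  have h2 : b * k⁻¹ * b⁻¹ ∈ K := (Subgroup.mem_normalizer_iff.1 hb k⁻¹).1 (K.inv_mem hk)
  have h3 : (k * a) * (k' * b) * (k * a)⁻¹ * (k' * b)⁻¹ =
      (k * (a * k' * a⁻¹)) * (a * b * a⁻¹ * b⁻¹) * ((b * k⁻¹ * b⁻¹) * k'⁻¹) := by group
  rw [h3]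
  have h4 : k * (a * k' * a⁻¹) ∈ K := K.mul_mem hk h1
  have h5 : (b * k⁻¹ * b⁻¹) * k'⁻¹ ∈ K := K.mul_mem h2 (K.inv_mem hk')
  rw [Subgroup.mul_mem_cancel_right _ h5, Subgroup.mul_mem_cancel_left _ h4]

/-- the index of `K` in `S = K S₀` -/
theorem KNQ_idx {G : Type} [Group G] {K S S₀ : Subgroup G} (hS : S₀ ≤ S)
    (h : ∀ n ∈ S, ∃ k ∈ K, k * n ∈ S₀) : K.relIndex S = K.relIndex S₀ := by
  unfold Subgroup.relIndex Subgroup.index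
  symm
  refine Nat.card_congr (Equiv.ofBijective (Subgroup.quotientSubgroupOfEmbeddingOfLE K hS)
    ⟨(Subgroup.quotientSubgroupOfEmbeddingOfLE K hS).injective, ?_⟩)
  intro q
  induction q using QuotientGroup.induction_on with
  | H x =>
    obtain ⟨k, hk, hkx⟩ := h (x : G)⁻¹ (S.inv_mem x.2)
    have hy : (x : G) * k⁻¹ ∈ S₀ := by
      have h1 := S₀.inv_mem hkx
      rwa [mul_inv_rev, inv_inv] at h1
    refine ⟨((⟨(x : G) * k⁻¹, hy⟩ : S₀) : S₀ ⧸ K.subgroupOf S₀), ?_⟩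
    rw [Subgroup.quotientSubgroupOfEmbeddingOfLE_apply_mk]
    rw [QuotientGroup.eq, Subgroup.mem_subgroupOf]
    change ((x : G) * k⁻¹)⁻¹ * (x : G) ∈ K
    have h2 : ((x : G) * k⁻¹)⁻¹ * (x : G) = k := by group
    rw [h2]
    exact hk

/-- the number of elements of the product set -/
theorem KNQ_card {Γ : Type} [Group Γ] (H : Subgroup Γ) (P : Set (Γ × Γ)) :
    (((H : Set Γ) ×ˢ (H : Set Γ)) ×ˢ P).ncard = Nat.card H ^ 2 * P.ncard := by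
  rw [Set.ncard_prod, Set.ncard_prod]
  have h1 : (H : Set Γ).ncard = Nat.card H := rfl
  rw [h1, sq]

theorem KNQ : KNQ_stmt := by
  intro Γ _ _ K S C S₀ hKS hSn hCS hSS hC h
  choose! c hc using h
  have hcK : ∀ s ∈ S, c s ∈ K := fun s hs => (hc s hs).1
  have hcS : ∀ s ∈ S, c s * s ∈ S₀ := fun s hs => (hc s hs).2
  have hCK : C ≤ K := by
    rw [← hC]
    exact inf_le_right
  have hmem : ∀ x, x ∈ S₀ → x ∈ K → x ∈ C := by
    intro x h1 h2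
    rw [← hC]
    exact ⟨h1, h2⟩
  refine ⟨?_, ?_, ?_⟩
  · unfold nP
    rw [← KNQ_card, ← KNQ_card]
    refine Set.ncard_congr' (Set.BijOn.equiv
      (fun x => (((c x.2.1)⁻¹ * x.1.1⁻¹, (c x.2.2)⁻¹ * x.1.2⁻¹), (x.1.1 * c x.2.1 * x.2.1, x.1.2 * c x.2.2 * x.2.2)))
      ⟨?_, ?_, ?_⟩)
    · rintro ⟨⟨γ, γ'⟩, ⟨a, b⟩⟩ ⟨⟨h1, h2⟩, h3, h4, h5⟩
      simp only at h1 h2 h3 h4 h5
      have e1 : γ * c a ∈ K := K.mul_mem (hCK h1) (hcK a h3)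
      have e2 : γ' * c b ∈ K := K.mul_mem (hCK h2) (hcK b h4)
      have e3 : γ * c a * a ∈ S₀ := by
        rw [mul_assoc]
        exact S₀.mul_mem (hCS h1) (hcS a h3)
      have e4 : γ' * c b * b ∈ S₀ := by
        rw [mul_assoc]
        exact S₀.mul_mem (hCS h2) (hcS b h4)
      refine ⟨⟨?_, ?_⟩, e3, e4, ?_⟩
      · exact K.mul_mem (K.inv_mem (hcK a h3)) (K.inv_mem (hCK h1))
      · exact K.mul_mem (K.inv_mem (hcK b h4)) (K.inv_mem (hCK h2))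
      · refine hmem _ ?_ ?_
        · exact S₀.mul_mem (S₀.mul_mem (S₀.mul_mem e3 e4) (S₀.inv_mem e3)) (S₀.inv_mem e4)
        · exact (KNQ_comm e1 e2 (hSn h3) (hSn h4)).2 h5
    · rintro ⟨⟨γ, γ'⟩, ⟨a, b⟩⟩ - ⟨⟨γ₁, γ₁'⟩, ⟨a₁, b₁⟩⟩ - he
      simp only [Prod.mk.injEq] at he
      obtain ⟨⟨h1, h2⟩, h3, h4⟩ := he
      have e1 : a = a₁ := by
        calc a = ((c a)⁻¹ * γ⁻¹) * (γ * c a * a) := by group
          _ = ((c a₁)⁻¹ * γ₁⁻¹) * (γ₁ * c a₁ * a₁) := by rw [h1, h3]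
          _ = a₁ := by group
      have e2 : b = b₁ := by
        calc b = ((c b)⁻¹ * γ'⁻¹) * (γ' * c b * b) := by group
          _ = ((c b₁)⁻¹ * γ₁'⁻¹) * (γ₁' * c b₁ * b₁) := by rw [h2, h4]
          _ = b₁ := by group
      subst e1
      subst e2
      have e3 : γ = γ₁ := mul_right_cancel (mul_right_cancel h3)
      have e4 : γ' = γ₁' := mul_right_cancel (mul_right_cancel h4)
      rw [e3, e4]
    · rintro ⟨⟨k, k'⟩, ⟨s, g⟩⟩ ⟨⟨h1, h2⟩, h3, h4, h5⟩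
      simp only at h1 h2 h3 h4 h5
      have e1 : k * s ∈ S := S.mul_mem (hKS h1) (hSS h3)
      have e2 : k' * g ∈ S := S.mul_mem (hKS h2) (hSS h4)
      refine ⟨((s * (c (k * s) * (k * s))⁻¹, g * (c (k' * g) * (k' * g))⁻¹), (k * s, k' * g)), ⟨⟨?_, ?_⟩, e1, e2, ?_⟩, ?_⟩
      · refine hmem _ (S₀.mul_mem h3 (S₀.inv_mem (hcS _ e1))) ?_
        have e3 : s * (c (k * s) * (k * s))⁻¹ = k⁻¹ * (c (k * s))⁻¹ := by group
        change s * (c (k * s) * (k * s))⁻¹ ∈ K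
        rw [e3]
        exact K.mul_mem (K.inv_mem h1) (K.inv_mem (hcK _ e1))
      · refine hmem _ (S₀.mul_mem h4 (S₀.inv_mem (hcS _ e2))) ?_
        have e3 : g * (c (k' * g) * (k' * g))⁻¹ = k'⁻¹ * (c (k' * g))⁻¹ := by group
        change g * (c (k' * g) * (k' * g))⁻¹ ∈ K
        rw [e3]
        exact K.mul_mem (K.inv_mem h2) (K.inv_mem (hcK _ e2))
      · exact (KNQ_comm h1 h2 (hSn (hSS h3)) (hSn (hSS h4))).2 (hCK h5)
      · simp only [Prod.mk.injEq]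
        refine ⟨⟨?_, ?_⟩, ?_, ?_⟩ <;> group
  · intro hCY s hs g hg hsg
    have e1 : c s * s ∈ S₀ := hcS s hs
    have e2 : c g * g ∈ S₀ := hcS g hg
    have e3 : (c s * s) * (c g * g) * (c s * s)⁻¹ * (c g * g)⁻¹ ∈ C := by
      refine hmem _ ?_ ?_
      · exact S₀.mul_mem (S₀.mul_mem (S₀.mul_mem e1 e2) (S₀.inv_mem e1)) (S₀.inv_mem e2)
      · exact (KNQ_comm (hcK s hs) (hcK g hg) (hSn hs) (hSn hg)).2 hsg
    obtain ⟨r, hr, ⟨i, hi⟩, j, hj⟩ := hCY _ e1 _ e2 e3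
    have key : ∀ (m : ℤ) (k x : Γ), k ∈ K → r ^ m * (k * x) ∈ C → r ^ m * x ∈ K := by
      intro m k x hk hx
      have h1 : r ^ m ∈ nz K := (nz K).zpow_mem (hSn (hSS hr)) m
      have h2 : r ^ m * k⁻¹ * (r ^ m)⁻¹ ∈ K := (Subgroup.mem_normalizer_iff.1 h1 k⁻¹).1 (K.inv_mem hk)
      have h3 := K.mul_mem h2 (hCK hx)
      have h4 : r ^ m * k⁻¹ * (r ^ m)⁻¹ * (r ^ m * (k * x)) = r ^ m * x := by group
      rwa [h4] at h3
    exact ⟨r, hSS hr, ⟨i, key i _ _ (hcK s hs) hi⟩, j, key j _ _ (hcK g hg) hj⟩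
  · rw [KNQ_idx hSS (fun n hn => ⟨c n, hcK n hn, hcS n hn⟩), ← hC, Subgroup.inf_relIndex_left]

end Pool.Agent.FI2
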